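import Pool.Agent.Lib.MP_1b01a6_co.HexAll60

/-!
MP_1b01a6_co: Heesch numbers of convex shapes other than triangles, quadrilaterals, pentagons.
-/

namespace Pool.Agent.Results.MP_1b01a6_co.ConvexTiles

open MeasureTheory Set Metric MP1b01a6

/-- First part: with one corona around it a convex shape is a polygon, and the angles satisfy a
relation at every vertex; growth for `n` vertices. Second part: one constant `ρ > 1` for all convex
shapes which are no tiles and no polygons with at most five vertices. Third part: one bound for the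
Heesch numbers of all these shapes with bounded elongation. -/
theorem result :
    (∀ T : Set Pl, IsCompact T → Convex ℝ T → (interior T).Nonempty →
      ∀ k : ℕ, 1 ≤ k → HasCoronas T k →
        (T.extremePoints ℝ).Finite ∧
        ((((T.extremePoints ℝ).ncard : ℝ) - 2) / 4) ^ k * (volume T).toReal ≤
          Real.pi * ((k : ℝ) + 1) ^ 2 * diam T ^ 2 ∧
        ∀ v ∈ T.extremePoints ℝ, ∃ c : Pl →₀ ℕ, (∀ w, c w ≠ 0 → w ∈ T.extremePoints ℝ) ∧
          1 ≤ c v ∧ (c.sum (fun w m => (m : ℝ) * ang T w) = Real.pi ∨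
            c.sum (fun w m => (m : ℝ) * ang T w) = 2 * Real.pi)) ∧
    (∃ ρ : ℝ, 1 < ρ ∧ ∀ T : Set Pl, IsCompact T → Convex ℝ T → (interior T).Nonempty →
      ¬((T.extremePoints ℝ).Finite ∧ (T.extremePoints ℝ).ncard ≤ 5) →
      Tiles T ∨ ∀ k : ℕ, HasCoronas T k →
        ρ ^ k * (volume T).toReal ≤ Real.pi * ((k : ℝ) + 1) ^ 2 * diam T ^ 2) ∧
    (∀ R : ℝ, ∃ N : ℕ, ∀ T : Set Pl, IsCompact T → Convex ℝ T → (interior T).Nonempty →
      ¬((T.extremePoints ℝ).Finite ∧ (T.extremePoints ℝ).ncard ≤ 5) →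
      diam T ^ 2 ≤ R * (volume T).toReal → Tiles T ∨ heesch T ≤ N) :=
  ⟨fun _ hcomp hc hi _ hk h => ⟨(good_of_corona hcomp hc hi hk h).fin,
    main_area hcomp hc hi hk h, fun _ hv => angle_rel hcomp hc hi hk h hv⟩,
    convex_growth, convex_bound⟩

end Pool.Agent.Results.MP_1b01a6_co.ConvexTiles
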