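import Pool.Agent.Lib.MP_1b01a6_co.Fin55
import Pool.Agent.Lib.MP_1b01a6_co.Poly55

/-!
MP_1b01a6_co: Heesch numbers of shapes with corner excess.

A shape `T` with finitely many corners, `p` of them convex, `q` of them reflex, and with total
exterior angle `2 π E` at its corners has positive corner excess if `p - q > 6 E`.  The numbers of
copies in a chain of coronas around such a shape grow at least like `(1 + e) ^ k`, where
`e = (p - q - 6 E) / (max 4 (6 E - 3) + 4 q)`.  So such a shape is no tile, its Heesch number is
finite, and it is bounded in terms of `e` and of the ratio of the squared diameter to the area.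
For polygons `E = 1`, so this applies if `p - q ≥ 7`.
-/

namespace Pool.Agent.Results.MP_1b01a6_co.CornerExcess

open MeasureTheory Set Metric MP1b01a6 MP1b01a6.Corner

theorem result :
    -- shapes with corners and positive corner excess: growth, no tiling, finite Heesch number
    (∀ (T : Set Pl) (C : Finset Pl) (a : Pl → ℝ), HasCorners T C a → 0 < exc C a →
      (∀ (k : ℕ) (P : ℕ → Set (Set Pl)), IsChain T k P →
        (1 + exc C a / den C a) ^ k ≤ ((P k).ncard : ℝ)) ∧
      (∀ k : ℕ, HasCoronas T k →
        (1 + exc C a / den C a) ^ k * (volume T).toReal ≤ Real.pi * ((k + 1) * diam T) ^ 2) ∧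
      ¬ IsTile T ∧ heesch T < ⊤) ∧
    -- the bound for the Heesch number is uniform
    (∀ K c : ℝ, 0 < c → ∃ N : ℕ, ∀ (T : Set Pl) (C : Finset Pl) (a : Pl → ℝ),
      HasCorners T C a → c * den C a ≤ exc C a → diam T ^ 2 ≤ K * (volume T).toReal →
        heesch T ≤ N) ∧
    -- polygons have corners, and the excess is at least `p - q - 6`
    (∀ (T : Set Pl) (C : Finset Pl), IsPolygon T C → ∃ a : Pl → ℝ, HasCorners T C a ∧
      (convexC C a : ℝ) - reflexC C a - 6 ≤ exc C a ∧ den C a = 4 * (reflexC C a + 1)) := by
  refine ⟨fun T C a h hexc => ⟨fun k P hP => growth h hexc.le hP k le_rfl,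
    fun k hk => area_bound h hexc.le hk, not_isTile h hexc, heesch_lt_top h hexc⟩, fun K c hc => uniform_bound K c hc, fun T C h => ?_⟩
  obtain ⟨a, ha, hturn⟩ := h.hasCorners
  refine ⟨a, ha, ?_, ?_⟩
  · unfold exc
    linarith
  · unfold den
    rw [max_eq_left (by linarith)]
    ring

end Pool.Agent.Results.MP_1b01a6_co.CornerExcess
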