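import Pool.Agent.Lib.MP_1b01a6_co.FlcLink55
import Pool.Agent.Lib.MP_1b01a6_co.FlcTwo_75

/-!
MP_1b01a6_co: Heesch numbers are bounded for a bounded number of relative positions.

For every `M` there is `N` such that every shape `T` with a chain of `N` coronas in which touching
copies have at most `M` relative positions is a tile.  In particular this is so if touching copies
are linked, in at most `t` steps, by common pairs of points from a set of at most `n` marked points
of `T`, as in edge-to-edge chains of coronas around polygons.
-/

namespace Pool.Agent.Results.MP_1b01a6_co.FewPositions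

open Set MP1b01a6 MP1b01a6.Corner MP1b01a6.Flc

theorem result :
    (∀ M : ℕ, ∃ N : ℕ, ∀ T : Set Pl, IsCompact T → IsPreconnected T →
      T ⊆ closure (interior T) → ∀ P : ℕ → Set (Set Pl), IsChain T N P →
        FewPositions T (P N) M → IsTile T) ∧
    (∀ n t : ℕ, ∃ N : ℕ, ∀ T : Set Pl, IsCompact T → IsPreconnected T →
      T ⊆ closure (interior T) → ∀ C : Finset Pl, C.card ≤ n →
        ∀ P : ℕ → Set (Set Pl), IsChain T N P → Linked T C t (P N) → IsTile T) :=
  ⟨few_positions, linked_chain two_points⟩

end Pool.Agent.Results.MP_1b01a6_co.FewPositions
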