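import Pool.Agent.Lib.MP_1b01a6_co.PolyAll60

/-!
MP_1b01a6_co: Heesch numbers of polygons and of convex shapes.
-/

namespace Pool.Agent.Results.MP_1b01a6_co.Polygons

open MeasureTheory Set Metric MP1b01a6

/-- For every `n` and `R` there is `N` such that every polygon with at most `n` corners, convex or
not, and every convex shape, with squared diameter at most `R` times the area, tiles the plane or
has Heesch number at most `N`. -/
theorem result : ∀ (n : ℕ) (R : ℝ), ∃ N : ℕ, ∀ T : Set Pl,
    ((∃ m, 3 ≤ m ∧ m ≤ n ∧ IsPolygon m T) ∨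
      (IsCompact T ∧ Convex ℝ T ∧ (interior T).Nonempty)) →
    diam T ^ 2 ≤ R * (volume T).toReal → Tiles T ∨ heesch T ≤ N :=
  PolyR.all_bound

end Pool.Agent.Results.MP_1b01a6_co.Polygons
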